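import Pool.Agent.MP_0f71ae_nt.Fine.Final
import Pool.Agent.MP_0f71ae_nt.Sz.Def

/-!
# From partitions into progressions to single progressions and major arcs
-/

set_option autoImplicit false

namespace Pool.Agent.MP_0f71ae_nt.Typ

open Finset Pool.Agent.MP_0f71ae_nt.Reg Pool.Agent.MP_0f71ae_nt.Cnt
open Pool.Agent.MP_0f71ae_nt.Fine (piece piece_ap piece_sub piece_sum cut3 cut3_mono ph ph_norm
  ph_sub ph_pieces piece_sum_fun div_mono)

/-- The discrepancy of `A` is at most `D` in all partitions into at most `S` progressions. -/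
def PB (N : ℕ) (S D : ℝ) (A : Finset ℕ) : Prop :=
  ∀ (ι : Type) (s : Finset ι) (P : ι → Finset ℕ), (s.card : ℝ) ≤ S →
    (∀ i ∈ s, Fine.IsAP (P i)) → (∀ i ∈ s, ∀ j ∈ s, i ≠ j → Disjoint (P i) (P j)) →
    (∀ n, n ∈ Icc 1 N ↔ ∃ i ∈ s, n ∈ P i) →
    ∑ i ∈ s, |((A ∩ P i).card : ℝ) - ((P i).card : ℝ) / N * A.card| ≤ D

theorem piece_core_u {D S : ℝ} {N : ℕ} {A : Finset ℕ} (hU : PB N S D A) {q T : ℕ} (hq : 1 ≤ q)
    {τ : ℕ → ℕ} (hτ : Monotone τ) (hT : ∀ n ∈ Icc 1 N, τ n < T) (hS : (q : ℝ) * T ≤ S) :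
    ∑ i ∈ range q ×ˢ range T, |((A ∩ piece N q τ i).card : ℝ) -
      ((piece N q τ i).card : ℝ) / N * A.card| ≤ D := by
  refine hU (ℕ × ℕ) _ (piece N q τ) ?_ (fun i _ => piece_ap N hq hτ i) ?_ ?_
  · rw [card_product, card_range, card_range]
    push_cast
    exact hS
  · intro i _ j _ hij
    rw [disjoint_left]
    intro n hn hn'
    simp only [piece, mem_filter] at hn hn'
    exact hij (Prod.ext (hn.2.1.symm.trans hn'.2.1) (hn.2.2.symm.trans hn'.2.2))
  · intro n
    constructor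
    · intro hn
      refine ⟨(n % q, τ n), ?_, ?_⟩
      · rw [mem_product, mem_range, mem_range]
        exact ⟨Nat.mod_lt _ (by omega), hT n hn⟩
      · unfold Fine.piece
        exact mem_filter.2 ⟨hn, rfl, rfl⟩
    · rintro ⟨i, -, hi⟩
      exact piece_sub N q τ i hi

/-- Every partition of `{1, …, N}` into at most `S` progressions. -/
theorem fin_core_u {D S : ℝ} {N : ℕ} {A : Finset ℕ} (hU : PB N S D A)
    (Q : Finpartition (Icc 1 N)) (hS : (Q.parts.card : ℝ) ≤ S)
    (hQ : ∀ P ∈ Q.parts, Fine.IsAP P) :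
    ∑ P ∈ Q.parts, |((A ∩ P).card : ℝ) - (P.card : ℝ) / N * A.card| ≤ D := by
  classical
  refine hU (Finset ℕ) Q.parts (fun P => P) hS hQ (fun P hP P' hP' h => Q.disjoint hP hP' h) ?_
  intro n
  have h2 : Q.parts.biUnion id = Icc 1 N := Q.biUnion_parts
  have h3 : n ∈ Q.parts.biUnion id ↔ n ∈ Icc 1 N := by rw [h2]
  exact h3.symm.trans (by rw [mem_biUnion]; simp)

/-- Every progression. -/
theorem ap_core_u {D S : ℝ} {N : ℕ} {A : Finset ℕ} (hU : PB N S D A)
    (hN : 1 ≤ N) {e e2 : ℝ} (he : 0 < e) (he1 : e ≤ 1) (hS : 6 / e ≤ S) (he2 : e ≤ e2)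
    (hshort : ∀ P ⊆ Icc 1 N, Fine.IsAP P → (P.card : ℝ) / N ≤ e →
      ((A ∩ P).card : ℝ) ≤ e2 * A.card) (hD : 0 ≤ D)
    {P : Finset ℕ} (hP : Fine.IsAP P) (hPN : P ⊆ Icc 1 N) :
    |((A ∩ P).card : ℝ) - (P.card : ℝ) / N * A.card| ≤ D + e2 * A.card := by
  classical
  have hN0 : (0 : ℝ) < N := by exact_mod_cast hN
  have hA0 : (0 : ℝ) ≤ A.card := Nat.cast_nonneg _
  have heA : 0 ≤ e2 * (A.card : ℝ) := mul_nonneg (by linarith) hA0
  have hPc : P.card ≤ N := by simpa using card_le_card hPN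
  have hS6 : 6 ≤ S := le_trans (by rw [le_div_iff₀ he]; nlinarith) hS
  by_cases hsm : (P.card : ℝ) / N ≤ e
  · -- a short progression
    have a1 := hshort P hPN hP hsm
    have a3 : (P.card : ℝ) / N * A.card ≤ e2 * A.card :=
      mul_le_mul_of_nonneg_right (hsm.trans he2) hA0
    have a4 : (0 : ℝ) ≤ (A ∩ P).card := Nat.cast_nonneg _
    have a5 : 0 ≤ (P.card : ℝ) / N * A.card := by positivity
    rw [abs_le]
    constructor <;> linarith
  · push Not at hsm
    obtain ⟨a, q, m, hq, rfl⟩ := hP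
    have hinj : Function.Injective (fun j : ℕ => a + q * j) := by
      intro x y hxy
      have h : q * x = q * y := by simpa using hxy
      exact Nat.eq_of_mul_eq_mul_left (by omega) h
    rw [card_image_of_injective _ hinj, card_range] at hsm hPc
    have hm0 : 0 < m := by
      rcases Nat.eq_zero_or_pos m with rfl | h0
      · simp at hsm
        linarith
      · exact h0
    -- a difference which is not too large
    obtain ⟨q', hq', hqm, himg⟩ : ∃ q' : ℕ, 1 ≤ q' ∧ (q' : ℝ) * 3 ≤ S ∧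
        (range m).image (fun j => a + q * j) = (range m).image (fun j => a + q' * j) := by
      rcases Nat.lt_or_ge 1 m with hm1 | hm1
      · refine ⟨q, hq, ?_, rfl⟩
        have h1 := mem_Icc.1 (hPN (mem_image_of_mem _ (mem_range.2 hm0)))
        have h2 := mem_Icc.1 (hPN (mem_image_of_mem (fun j => a + q * j)
          (mem_range.2 (show m - 1 < m by omega))))
        simp only [mul_zero, add_zero] at h1 h2
        have h3 : q * (m - 1) ≤ N := by omega
        have h4 : q * m ≤ 2 * N := by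
          have h5 : m ≤ 2 * (m - 1) := by omega
          calc q * m ≤ q * (2 * (m - 1)) := Nat.mul_le_mul_left _ h5
            _ = 2 * (q * (m - 1)) := by ring
            _ ≤ 2 * N := by omega
        have h5 : (q : ℝ) * m ≤ 2 * N := by exact_mod_cast h4
        have h6 : e * N < m := by rwa [lt_div_iff₀ hN0] at hsm
        have h7 : (q : ℝ) * e * N ≤ 2 * N := by
          have h8 : (0 : ℝ) ≤ q := Nat.cast_nonneg _
          have := mul_le_mul_of_nonneg_left h6.le h8
          linarith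
        have h8 : (q : ℝ) * e ≤ 2 := le_of_mul_le_mul_right h7 hN0
        refine le_trans ?_ hS
        rw [le_div_iff₀ he]
        linarith
      · have hm : m = 1 := by omega
        subst hm
        exact ⟨1, le_rfl, by push_cast; linarith, by simp⟩
    rw [himg] at hPN ⊢
    have hinj' : Function.Injective (fun j : ℕ => a + q' * j) := by
      intro x y hxy
      have h : q' * x = q' * y := by simpa using hxy
      exact Nat.eq_of_mul_eq_mul_left (by omega) h
    have hb : a ≤ a + q' * m := Nat.le_add_right _ _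
    have hpc := piece_core_u (q := q') (T := 3) (S := S) hU hq' (cut3_mono hb)
      (fun n _ => by unfold cut3; split_ifs <;> omega) (by push_cast; linarith)
    have hpe : (range m).image (fun j => a + q' * j) =
        piece N q' (cut3 a (a + q' * m)) (a % q', 1) := by
      ext n
      simp only [piece, mem_filter]
      constructor
      · intro hn
        refine ⟨hPN hn, ?_⟩
        obtain ⟨j, hj, rfl⟩ := mem_image.1 hn
        have hj' := mem_range.1 hj
        have h1 : q' * j < q' * m := Nat.mul_lt_mul_of_pos_left hj' (by omega)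
        refine ⟨by simp, ?_⟩
        unfold cut3
        rw [if_neg (by omega), if_pos (by omega)]
      · rintro ⟨hn, hn1, hn2⟩
        unfold cut3 at hn2
        have h1 : ¬ n < a := fun h1 => by rw [if_pos h1] at hn2; omega
        have h2 : n < a + q' * m := by
          by_contra h2
          rw [if_neg h1, if_neg h2] at hn2
          omega
        have h3 : a ≤ n := by omega
        obtain ⟨j, hj⟩ := (Nat.modEq_iff_dvd' h3).1 (show a ≡ n [MOD q'] from hn1.symm)
        refine mem_image.2 ⟨j, mem_range.2 ?_, by omega⟩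
        by_contra hjm
        push Not at hjm
        have h4 : q' * m ≤ q' * j := Nat.mul_le_mul_left _ hjm
        omega
    rw [hpe]
    refine le_trans ?_ (hpc.trans (le_add_of_nonneg_right heA))
    exact single_le_sum (f := fun i => |((A ∩ piece N q' (cut3 a (a + q' * m)) i).card : ℝ) -
      ((piece N q' (cut3 a (a + q' * m)) i).card : ℝ) / N * A.card|) (fun i _ => abs_nonneg _)
      (mem_product.2 ⟨mem_range.2 (Nat.mod_lt _ (by omega)), mem_range.2 (by norm_num)⟩)

/-- One major arc, for given blocks. -/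
theorem arc_block_u {D S : ℝ} {N : ℕ} {A : Finset ℕ} (hU : PB N S D A) (hN : 1 ≤ N)
    (hAN : A ⊆ Icc 1 N) {δ : ℝ} {q H : ℕ} (hq : 1 ≤ q)
    (hS : (q : ℝ) * ((N / H + 1 : ℕ) : ℝ) ≤ S)
    (b : ℤ) (β : ℝ) (hδ : 0 ≤ δ)
    (hβ : ∀ m n : ℕ, m ≤ n → m / H = n / H → q ∣ n - m →
      2 * Real.pi * |β| * ((n : ℝ) - m) ≤ δ) :
    ‖∑ n ∈ A, ph ((b : ℝ) / q + β) n - ((A.card : ℝ) / N : ℝ) *
      ∑ n ∈ Icc 1 N, ph ((b : ℝ) / q + β) n‖ ≤ D + 2 * δ * A.card := by
  have hN0 : (0 : ℝ) < N := by exact_mod_cast hN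
  have hT : ∀ n ∈ Icc 1 N, n / H < N / H + 1 := fun n hn =>
    Nat.lt_succ_of_le (Nat.div_le_div_right (mem_Icc.1 hn).2)
  have hpc := piece_core_u (q := q) (T := N / H + 1) (S := S) hU hq (div_mono H) hT hS
  have h1 := ph_pieces (range q ×ˢ range (N / H + 1)) (piece N q fun n => n / H) (A := A)
    (B := Icc 1 N) (c := (A.card : ℝ) / N) (δ := δ) (D := D)
    (by positivity) (ph ((b : ℝ) / q + β)) (ph_norm _) hδ
    (piece_sum_fun N q _ hq _ hT hAN)
    (fun g => by
      rw [piece_sum_fun N q _ hq _ hT (Subset.refl _) g]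
      refine sum_congr rfl fun i _ => ?_
      rw [inter_eq_right.2 (piece_sub N q _ i)])
    (by
      intro i _ m hm n hn
      have h2 := (mem_filter.1 hm).2
      have h3 := (mem_filter.1 hn).2
      rcases le_total m n with hmn | hmn
      · have hd : q ∣ n - m := (Nat.modEq_iff_dvd' hmn).1 (h2.1.trans h3.1.symm)
        exact (ph_sub hq b β hmn hd).trans (hβ m n hmn (h2.2.trans h3.2.symm) hd)
      · have hd : q ∣ m - n := (Nat.modEq_iff_dvd' hmn).1 (h3.1.trans h2.1.symm)
        rw [norm_sub_rev]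
        exact (ph_sub hq b β hmn hd).trans (hβ n m hmn (h3.2.trans h2.2.symm) hd))
    (by
      refine le_trans (le_of_eq ?_) hpc
      refine sum_congr rfl fun i _ => ?_
      congr 2
      ring)
  refine h1.trans ?_
  rw [Nat.card_Icc, Nat.add_sub_cancel, div_mul_cancel₀ _ hN0.ne']
  linarith

/-- The major arcs. -/
theorem arc_u {D S : ℝ} {N : ℕ} {A : Finset ℕ} (hU : PB N S D A) (hN : 1 ≤ N)
    (hAN : A ⊆ Icc 1 N) {e L : ℝ} {q : ℕ} (he : 0 < e) (he1 : e ≤ 1) (hL : 1 ≤ L)
    (hS : 16 * L ^ 2 / e ≤ S)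
    (b : ℤ) (β : ℝ) (hq : 1 ≤ q) (hqL : (q : ℝ) ≤ L) (hβ : |β| ≤ L / N) :
    ‖∑ n ∈ A, ph ((b : ℝ) / q + β) n - ((A.card : ℝ) / N : ℝ) *
      ∑ n ∈ Icc 1 N, ph ((b : ℝ) / q + β) n‖ ≤ D + 2 * e * A.card := by
  have hN0 : (0 : ℝ) < N := by exact_mod_cast hN
  have hL0 : (0 : ℝ) < L := by linarith
  have hq0 : (0 : ℝ) < q := by exact_mod_cast hq
  have hpi : Real.pi < 3.15 := Real.pi_lt_d2
  have hpi0 : 0 < Real.pi := Real.pi_pos
  have hLL : L ≤ L ^ 2 / e := by
    rw [le_div_iff₀ he]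
    nlinarith
  rcases le_or_gt (N : ℝ) (7 * L ^ 2 / e) with hc | hc
  · -- blocks of length q
    refine arc_block_u (H := q) hU hN hAN hq ?_ b β he.le ?_
    · refine le_trans ?_ hS
      have h1 : (q : ℝ) * ((N / q : ℕ) : ℝ) ≤ N := by exact_mod_cast Nat.mul_div_le N q
      have h2 : (q : ℝ) * ((N / q + 1 : ℕ) : ℝ) = (q : ℝ) * ((N / q : ℕ) : ℝ) + q := by
        push_cast
        ring
      rw [h2]
      have h3 : 16 * L ^ 2 / e = 7 * L ^ 2 / e + 9 * (L ^ 2 / e) := by ring
      rw [h3]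
      nlinarith
    · intro m n hmn hmod hd
      have h1 : m = n := by
        obtain ⟨c, hc⟩ := hd
        have h2 : n = m + q * c := by omega
        rw [h2, Nat.add_mul_div_left _ _ (by omega)] at hmod
        have h3 : c = 0 := by omega
        rw [h2, h3]
        simp
      rw [h1, sub_self, mul_zero]
      exact he.le
  · -- blocks of length q h
    obtain ⟨x, hx⟩ : ∃ x : ℝ, x = e * N / (7 * L * q) := ⟨_, rfl⟩
    have hx1 : 1 ≤ x := by
      rw [hx, le_div_iff₀ (by positivity), one_mul]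
      rw [div_lt_iff₀ he] at hc
      have h1 : 7 * L * q ≤ 7 * L ^ 2 := by nlinarith
      linarith
    have hf1 : 1 ≤ ⌊x⌋₊ := Nat.le_floor (by exact_mod_cast hx1)
    have hfx : (⌊x⌋₊ : ℝ) ≤ x := Nat.floor_le (by linarith)
    have hfx2 : x ≤ 2 * (⌊x⌋₊ : ℝ) := by
      have h1 := Nat.lt_floor_add_one x
      have h2 : (1 : ℝ) ≤ ⌊x⌋₊ := by exact_mod_cast hf1
      linarith
    obtain ⟨g, hg⟩ : ∃ g : ℕ, g = ⌊x⌋₊ := ⟨_, rfl⟩
    rw [← hg] at hf1 hfx hfx2
    have hg0 : (0 : ℝ) < g := by exact_mod_cast hf1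
    have hqg : 1 ≤ q * g := Nat.one_le_iff_ne_zero.2 (Nat.mul_ne_zero (by omega) (by omega))
    refine arc_block_u (H := q * g) hU hN hAN hq ?_ b β he.le ?_
    · refine le_trans ?_ hS
      have h1 : ((N / (q * g) : ℕ) : ℝ) ≤ N / (q * g : ℝ) := by
        have := Nat.cast_div_le (α := ℝ) (m := N) (n := q * g)
        push_cast at this
        exact this
      have h2 : (q : ℝ) * ((N / (q * g) + 1 : ℕ) : ℝ) ≤ N / g + q := by
        push_cast
        have h3 : (q : ℝ) * (N / (q * g : ℝ) + 1) = N / g + q := by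
          field_simp
        rw [← h3]
        apply mul_le_mul_of_nonneg_left _ hq0.le
        linarith
      refine h2.trans ?_
      have h4 : (N : ℝ) / g ≤ 14 * (L ^ 2 / e) := by
        rw [div_le_iff₀ hg0]
        have h5 : e * N ≤ 14 * L ^ 2 * g := by
          have h6 : e * N = x * (7 * L * q) := by
            rw [hx]
            field_simp
          rw [h6]
          have h7 : x * (7 * L * q) ≤ (2 * g) * (7 * L * L) := by
            apply mul_le_mul hfx2 _ (by positivity) (by positivity)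
            nlinarith
          nlinarith
        have h8 : 14 * (L ^ 2 / e) * g = 14 * L ^ 2 * g / e := by ring
        rw [h8, le_div_iff₀ he]
        linarith
      have h9 : 16 * L ^ 2 / e = 16 * (L ^ 2 / e) := by ring
      rw [h9]
      have h10 : 0 ≤ L ^ 2 / e := by positivity
      linarith
    · intro m n hmn hmod _
      have h1 : n - m < q * g := by
        have h2 := Nat.div_add_mod m (q * g)
        have h3 := Nat.div_add_mod n (q * g)
        have h4 := Nat.mod_lt n (show q * g > 0 by omega)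
        rw [hmod] at h2
        omega
      have h2 : (n : ℝ) - m ≤ q * g := by
        have h3 : n ≤ m + q * g := by omega
        have h4 : (n : ℝ) ≤ m + q * g := by exact_mod_cast h3
        linarith
      have h0 : 0 ≤ (n : ℝ) - m := by
        have : (m : ℝ) ≤ n := by exact_mod_cast hmn
        linarith
      have h3 : |β| * ((n : ℝ) - m) ≤ L / N * (q * x) := by
        apply mul_le_mul hβ _ h0 (by positivity)
        exact h2.trans (mul_le_mul_of_nonneg_left hfx hq0.le)
      have h4 : L / N * (q * x) = e / 7 := by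
        rw [hx]
        field_simp
      rw [h4] at h3
      have h5 : 2 * Real.pi * |β| * ((n : ℝ) - m) = 2 * Real.pi * (|β| * ((n : ℝ) - m)) := by ring
      rw [h5]
      have h6 : 2 * Real.pi * (|β| * ((n : ℝ) - m)) ≤ 2 * Real.pi * (e / 7) :=
        mul_le_mul_of_nonneg_left h3 (by positivity)
      nlinarith

/-- From the coded partitions to arbitrary families. -/
theorem pb_of_equi {ε : ℝ} {L N : ℕ} {A : Finset ℕ} (h : Sz.Equi ε L N A) :
    PB N L (ε * A.card) A := by
  classical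
  intro ι s P hs hP hdis hU
  have hsL : s.card ≤ L := by exact_mod_cast hs
  choose! a q l hq hPe using hP
  set e := s.equivFin with he
  set g : ι → ℕ × ℕ × ℕ := fun i => (a i, q i, l i) with hg
  have hprog : ∀ i ∈ s, Sz.prog (g i) = P i := by
    intro i hi
    rw [hPe i hi]
    rfl
  set P' : Fin L → ℕ × ℕ × ℕ := fun k =>
    if hk : (k : ℕ) < s.card then g (e.symm ⟨k, hk⟩) else (0, 1, 0) with hP'
  have hP1 : ∀ k : Fin L, ∀ hk : (k : ℕ) < s.card,
      Sz.prog (P' k) = P (e.symm ⟨k, hk⟩) := by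
    intro k hk
    simp only [hP']
    rw [dif_pos hk]
    exact hprog _ (e.symm ⟨k, hk⟩).2
  have hP2 : ∀ k : Fin L, ¬ (k : ℕ) < s.card → Sz.prog (P' k) = ∅ := by
    intro k hk
    simp only [hP']
    rw [dif_neg hk]
    simp [Sz.prog]
  have hpart : Sz.IsPart N L P' := by
    refine ⟨?_, ?_, ?_⟩
    · intro k
      simp only [hP']
      split_ifs with hk
      · exact hq _ (e.symm ⟨k, hk⟩).2
      · exact le_rfl
    · intro k k' hne
      by_cases hk : (k : ℕ) < s.card
      · by_cases hk' : (k' : ℕ) < s.card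
        · rw [hP1 k hk, hP1 k' hk']
          apply hdis _ (e.symm ⟨k, hk⟩).2 _ (e.symm ⟨k', hk'⟩).2
          intro hcon
          have h1 := e.symm.injective (Subtype.ext hcon)
          have h2 : (k : ℕ) = k' := by simpa using congrArg Fin.val h1
          exact hne (Fin.ext h2)
        · rw [hP2 k' hk']; exact disjoint_empty_right _
      · rw [hP2 k hk]; exact disjoint_empty_left _
    · ext n
      rw [mem_biUnion, hU n]
      constructor
      · rintro ⟨k, -, hn⟩
        by_cases hk : (k : ℕ) < s.card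
        · rw [hP1 k hk] at hn
          exact ⟨_, (e.symm ⟨k, hk⟩).2, hn⟩
        · rw [hP2 k hk] at hn
          simp at hn
      · rintro ⟨i, hi, hn⟩
        have hk : ((e ⟨i, hi⟩ : Fin s.card) : ℕ) < s.card := (e ⟨i, hi⟩).2
        refine ⟨⟨(e ⟨i, hi⟩ : ℕ), lt_of_lt_of_le hk hsL⟩, mem_univ _, ?_⟩
        rw [hP1 _ hk]
        simpa using hn
  refine le_trans ?_ (h P' hpart)
  set f : Finset ℕ → ℝ := fun B => |((A ∩ B).card : ℝ) - (B.card : ℝ) / N * A.card| with hf
  have e1 : ∑ i ∈ s, f (P i) = ∑ k : Fin s.card, f (P (e.symm k)) := by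
    rw [← sum_coe_sort s (fun i => f (P i))]
    exact (Equiv.sum_comp e.symm (fun i : s => f (P i))).symm
  have e2 : ∑ k : Fin s.card, f (P (e.symm k)) =
      ∑ k : Fin s.card, f (Sz.prog (P' (Fin.castLE hsL k))) := by
    apply sum_congr rfl
    intro k _
    rw [hP1 (Fin.castLE hsL k) (by simp)]
    rfl
  have e3 : ∑ k : Fin s.card, f (Sz.prog (P' (Fin.castLE hsL k))) ≤
      ∑ k : Fin L, f (Sz.prog (P' k)) := by
    rw [← sum_image (s := (univ : Finset (Fin s.card))) (g := Fin.castLE hsL)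
      (f := fun k => f (Sz.prog (P' k))) (fun x _ y _ hxy => Fin.castLE_injective hsL hxy)]
    exact sum_le_sum_of_subset_of_nonneg (subset_univ _) (fun _ _ _ => abs_nonneg _)
  calc ∑ i ∈ s, |((A ∩ P i).card : ℝ) - ((P i).card : ℝ) / N * A.card|
      = ∑ i ∈ s, f (P i) := rfl
    _ = _ := e1
    _ = _ := e2
    _ ≤ _ := e3
    _ = ∑ k, |((A ∩ Sz.prog (P' k)).card : ℝ) - ((Sz.prog (P' k)).card : ℝ) / N * A.card| := rfl

/-- From partitions to `Even`. -/
theorem even_of_equi {ε L : ℝ} {N L' : ℕ} (hε : 0 < ε) (hε1 : ε ≤ 1) (hL : 1 ≤ L) (hN : 1 ≤ N)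
    (hL' : 256 * L ^ 2 / ε ^ 2 ≤ L') {A : Finset ℕ} (hAN : A ⊆ Icc 1 N)
    (h : Sz.Equi (ε / 4) L' N A)
    (hshort : ∀ P ⊆ Icc 1 N, Fine.IsAP P → (P.card : ℝ) / N ≤ ε ^ 2 / 32 →
      ((A ∩ P).card : ℝ) ≤ ε / 2 * A.card) : Fine.Even ε L N A := by
  have hU := pb_of_equi h
  have hA0 : (0 : ℝ) ≤ A.card := Nat.cast_nonneg _
  have hε2 : ε ^ 2 ≤ ε := by nlinarith
  have hε20 : 0 < ε ^ 2 := by positivity
  have hL2 : 1 ≤ L ^ 2 := by nlinarith
  have hS1 : L ≤ L' := by
    refine le_trans ?_ hL'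
    rw [le_div_iff₀ hε20]
    nlinarith
  have hS2 : 6 / (ε ^ 2 / 32) ≤ L' := by
    refine le_trans ?_ hL'
    have e1 : 6 / (ε ^ 2 / 32) = 192 / ε ^ 2 := by field_simp; norm_num
    rw [e1]
    apply div_le_div_of_nonneg_right _ hε20.le
    linarith
  have hS3 : 16 * L ^ 2 / (ε / 4) ≤ L' := by
    refine le_trans ?_ hL'
    have e1 : 16 * L ^ 2 / (ε / 4) = 64 * L ^ 2 / ε := by field_simp; norm_num
    rw [e1, div_le_div_iff₀ hε hε20]
    have : 0 ≤ L ^ 2 * ε := by positivity
    nlinarith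
  have hεA : 0 ≤ ε * (A.card : ℝ) := mul_nonneg hε.le hA0
  refine ⟨fun Q hQ hQP => ?_, fun P hP hPN => ?_, fun b q β hq hqL hβ => ?_⟩
  · have h1 := fin_core_u hU Q (hQ.trans hS1) hQP
    linarith
  · have h1 := ap_core_u hU hN (e := ε ^ 2 / 32) (e2 := ε / 2) (by positivity) (by linarith) hS2
      (by linarith) hshort (by positivity) hP hPN
    linarith
  · have h1 := arc_u hU hN hAN (e := ε / 4) (by positivity) (by linarith) hL hS3 b β hq hqL hβ
    linarith

end Pool.Agent.MP_0f71ae_nt.Typ
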